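import Pool.Agent.H46.EXC.Stmts

/-!
# DIS: the energy of one class is diagonal
-/

set_option autoImplicit false

namespace Pool.EXC

open Finset Pool.Agent.H98.ABCR Pool.SHA Pool.ABY Pool.VIO

theorem dis_card {α : Type} (A : Finset α) (f : α → ℚ) (b : ℝ)
    (h : ∀ ρ, ((A.filter fun w => f w = ρ).card : ℝ) ≤ b) :
    (A.card : ℝ) ≤ ((A.image f).card : ℝ) * b := by
  classical
  have h1 : (A.card : ℝ) = ∑ ρ ∈ A.image f, ((A.filter fun w => f w = ρ).card : ℝ) := by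
    rw [Finset.card_eq_sum_card_image f A]
    push_cast
    rfl
  rw [h1]
  calc ∑ ρ ∈ A.image f, ((A.filter fun w => f w = ρ).card : ℝ) ≤ ∑ _ρ ∈ A.image f, b :=
        Finset.sum_le_sum fun ρ _ => h ρ
    _ = ((A.image f).card : ℝ) * b := by rw [Finset.sum_const, nsmul_eq_mul]

theorem dis_thm (h1 : S_DIW) (h2 : S_DIT) : S_DIS := by
  intro c ε C0 hc hc1 hε hε1 hC0
  obtain ⟨ζ, τ, hζ, hζ1, hτ, hτ1, h⟩ := h1 c (ε / 4) C0 hc hc1 (by positivity) (by linarith) hC0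
  refine ⟨ζ, τ, hζ, hζ1, hτ, hτ1, fun e S L he heC => ?_⟩
  obtain ⟨κ0, X0, hκ, hX0, h3⟩ := h e he heC
  choose C hC1 hC using fun s => h2 s L (ε / 4) (by positivity)
  obtain ⟨B, hB1, hB⟩ : ∃ B : ℝ, 1 ≤ B ∧ ∀ s ≤ S, C s ≤ B := by
    refine ⟨∑ s ∈ range (S + 1), C s, ?_, fun s hs => ?_⟩
    · refine le_trans (hC1 0) ?_
      exact Finset.single_le_sum (f := C) (fun s _ => by linarith [hC1 s])
        (Finset.mem_range.2 (Nat.succ_pos S))
    · exact Finset.single_le_sum (f := C) (fun s _ => by linarith [hC1 s])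
        (Finset.mem_range.2 (Nat.lt_succ_of_le hs))
  have hB0 : 0 < B := by linarith
  refine ⟨κ0, max X0 (B ^ (2 / ε)), hκ, le_max_of_le_left hX0, ?_⟩
  intro X h0 Z T x E s hX hh hZ hZs hs hL hT hlo hup hE
  have hX0' : X0 ≤ X := le_trans (le_max_left _ _) hX
  have hX1 : 1 ≤ X := by linarith
  have hXp : 0 < X := by linarith
  have hBX : B ≤ X ^ (ε / 2) := by
    have e1 : B = (B ^ (2 / ε)) ^ (ε / 2) := by
      rw [← Real.rpow_mul hB0.le]
      have : 2 / ε * (ε / 2) = 1 := by field_simp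
      rw [this, Real.rpow_one]
    calc B = (B ^ (2 / ε)) ^ (ε / 2) := e1
      _ ≤ X ^ (ε / 2) := Real.rpow_le_rpow (Real.rpow_nonneg hB0.le _)
          (le_trans (le_max_right _ _) hX) (by positivity)
  obtain ⟨q, hq⟩ : ∃ q : ℕ, q = ∏ t ∈ T, t ^ x t := ⟨_, rfl⟩
  have h4 := h3 X h0 Z T x E s hX0' hh hZ hZs hT hlo hup hE
  rw [← hq] at h4 ⊢
  have hcl : 0 ≤ ((Cls q Z E).card : ℝ) ^ s := by positivity
  have h5 : (En (Sml q) (Cls q Z E) (un q) s (τ * e * h0) : ℝ) ≤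
      (((EnS (Sml q) (Cls q Z E) (un q) s (τ * e * h0)).image wq).card : ℝ) *
        (C s * X ^ (ε / 4) * ((Cls q Z E).card : ℝ) ^ s) := by
    refine dis_card _ wq _ fun ρ => ?_
    · refine le_trans ?_ (hC s X Z q E ρ hX1 hZ hZs hL)
      exact_mod_cast Finset.card_le_card (fun w hw => by
        rw [Finset.mem_filter] at hw ⊢
        refine ⟨?_, hw.2⟩
        have h6 := hw.1
        unfold EnS at h6
        simp only [Finset.mem_filter] at h6
        exact h6.1)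
  have hT0 : (0 : ℝ) ≤ ((∏ t ∈ T, t : ℕ) : ℝ) := Nat.cast_nonneg _
  have hCs : 0 ≤ C s := by linarith [hC1 s]
  calc (En (Sml q) (Cls q Z E) (un q) s (τ * e * h0) : ℝ)
      ≤ (((EnS (Sml q) (Cls q Z E) (un q) s (τ * e * h0)).image wq).card : ℝ) *
        (C s * X ^ (ε / 4) * ((Cls q Z E).card : ℝ) ^ s) := h5
    _ ≤ (((∏ t ∈ T, t : ℕ) : ℝ) * X ^ (ε / 4)) *
        (X ^ (ε / 2) * X ^ (ε / 4) * ((Cls q Z E).card : ℝ) ^ s) := by
        refine mul_le_mul h4 ?_ (by positivity) (by positivity)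
        have : C s ≤ X ^ (ε / 2) := (hB s hs).trans hBX
        gcongr
    _ = ((∏ t ∈ T, t : ℕ) : ℝ) * (X ^ (ε / 4) * X ^ (ε / 2) * X ^ (ε / 4)) *
        ((Cls q Z E).card : ℝ) ^ s := by ring
    _ = ((∏ t ∈ T, t : ℕ) : ℝ) * X ^ ε * ((Cls q Z E).card : ℝ) ^ s := by
        rw [← Real.rpow_add hXp, ← Real.rpow_add hXp]
        congr 3
        ring

end Pool.EXC
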