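import Pool.Agent.H46.EXC.Stmts

/-!
# RCT: greedy choice of small primes
-/

set_option autoImplicit false

namespace Pool.EXC

open Finset Pool.Agent.H98.ABCR Pool.SHA Pool.ABY Pool.VIO

theorem rct_thm (h1 : S_GRL) : S_RCT := by
  intro ν X n S hν hν1 hX hn hrad hS hq
  have hX0 : 0 < X := by linarith
  have hlX : 0 < Real.log X := Real.log_pos (by linarith)
  have hpr : ∀ q ∈ S, q.Prime := fun q hqS => Nat.prime_of_mem_primeFactors (hS hqS)
  have hc : ∀ q ∈ S, 0 < Real.log q / Real.log X ∧ Real.log q / Real.log X ≤ ν / 2 ∧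
      0 ≤ (n.factorization q : ℝ) * Real.log q := by
    intro q hqS
    have hq2 : (2 : ℝ) ≤ q := by exact_mod_cast (hpr q hqS).two_le
    have hlq : 0 < Real.log q := Real.log_pos (by linarith)
    refine ⟨div_pos hlq hlX, ?_, by positivity⟩
    rw [div_le_iff₀ hlX, ← Real.log_rpow hX0]
    exact Real.log_le_log (by linarith) (hq q hqS)
  obtain ⟨F, hFS, hF1, -, hF3⟩ := h1 S (fun q => Real.log q / Real.log X)
    (fun q => (n.factorization q : ℝ) * Real.log q) (ν / 2) (1 - ν / 2) (by positivity)
    (by linarith) (by linarith) hc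
  have hsplit : ∀ g : ℕ → ℝ, ∑ q ∈ S \ F, g q + ∑ q ∈ F, g q = ∑ q ∈ S, g q := fun g =>
    Finset.sum_sdiff hFS
  have hsum1 : ∑ q ∈ S, Real.log q / Real.log X ≤ 1 := by
    rw [← Finset.sum_div, div_le_one hlX]
    calc ∑ q ∈ S, Real.log q ≤ ∑ q ∈ n.primeFactors, Real.log (q : ℝ) := by
          refine Finset.sum_le_sum_of_subset_of_nonneg hS fun q hq _ => ?_
          have hq2 : (1 : ℝ) ≤ q := by
            exact_mod_cast (Nat.prime_of_mem_primeFactors hq).one_lt.le
          exact Real.log_nonneg hq2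
      _ = Real.log ((∏ q ∈ n.primeFactors, q : ℕ) : ℝ) := by
          push_cast
          rw [Real.log_prod]
          intro q hq
          have := (Nat.prime_of_mem_primeFactors hq).pos
          positivity
      _ ≤ Real.log X := by
          refine Real.log_le_log ?_ hrad
          exact_mod_cast Finset.prod_pos fun q hq => (Nat.prime_of_mem_primeFactors hq).pos
  refine ⟨S \ F, Finset.sdiff_subset, ?_, ?_⟩
  · have h2 := hsplit fun q => Real.log q / Real.log X
    have h3 : ∑ q ∈ S \ F, Real.log q / Real.log X ≤ ν := by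
      nlinarith [hF1, h2, hsum1, hν]
    have h4 : ∑ q ∈ S \ F, Real.log (q : ℝ) ≤ ν * Real.log X := by
      rw [← Finset.sum_div, div_le_iff₀ hlX] at h3
      exact h3
    have hpos : 0 < ((∏ q ∈ S \ F, q : ℕ) : ℝ) := by
      exact_mod_cast Finset.prod_pos fun q hq => (hpr q (Finset.mem_sdiff.1 hq).1).pos
    have h5 : Real.log ((∏ q ∈ S \ F, q : ℕ) : ℝ) ≤ Real.log (X ^ ν) := by
      rw [Real.log_rpow hX0]
      refine le_trans (le_of_eq ?_) h4
      push_cast
      rw [Real.log_prod]
      intro q hq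
      have := (hpr q (Finset.mem_sdiff.1 hq).1).pos
      positivity
    exact (Real.log_le_log_iff hpos (Real.rpow_pos_of_pos hX0 ν)).1 h5
  · unfold kl
    have h2 := hsplit fun q => (n.factorization q : ℝ) * Real.log q
    nlinarith [hF3, h2]

end Pool.EXC
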